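import Pool.Agent.H85.KP.Iface

/-!
# MP_6cc408_an, module M7: degrees two and three
-/

namespace Pool.Agent.H97.KP

open Polynomial Real Set
open Pool.Agent.H85.KP

theorem pt_re (t : ℝ) : (pt t).re = cos t := by
  unfold pt; rw [Complex.exp_ofReal_mul_I_re]

theorem pt_im (t : ℝ) : (pt t).im = sin t := by
  unfold pt; rw [Complex.exp_ofReal_mul_I_im]

theorem norm_pt (t : ℝ) : ‖pt t‖ = 1 := by
  unfold pt; exact Complex.norm_exp_ofReal_mul_I t

theorem RN_two : RN 2 = 1 / 2 := by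
  unfold RN
  have h : π / (((2 : ℕ) : ℝ) + 2) = π / 4 := by norm_num
  rw [h, cos_pi_div_four, div_pow, sq_sqrt (by norm_num)]
  norm_num

theorem RN_three : RN 3 = (3 - √5) / 2 := by
  unfold RN
  have h : π / (((3 : ℕ) : ℝ) + 2) = π / 5 := by norm_num
  rw [h, cos_pi_div_five]
  have h5 : √5 ^ 2 = 5 := sq_sqrt (by norm_num)
  have h0 : 0 ≤ √5 := sqrt_nonneg _
  rw [div_eq_iff (by positivity)]
  nlinarith

theorem ev_two {p : ℝ[X]} (hd : p.natDegree ≤ 2) (h0 : p.coeff 0 = 0) (h1 : p.coeff 1 = 1)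
    (z : ℂ) : ev p z = z + p.coeff 2 * z ^ 2 := by
  unfold ev
  rw [aeval_eq_sum_range' (show p.natDegree < 3 by omega)]
  simp [Finset.sum_range_succ, h0, h1, Complex.real_smul]

theorem ev_three {p : ℝ[X]} (hd : p.natDegree ≤ 3) (h0 : p.coeff 0 = 0) (h1 : p.coeff 1 = 1)
    (z : ℂ) : ev p z = z + p.coeff 2 * z ^ 2 + p.coeff 3 * z ^ 3 := by
  unfold ev
  rw [aeval_eq_sum_range' (show p.natDegree < 4 by omega)]
  simp [Finset.sum_range_succ, h0, h1, Complex.real_smul]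

theorem small2 (hL : TargetLast) : TargetSmall2 := by
  intro p hp t
  have h := hL 2 p (by norm_num) hp
  obtain ⟨hd, h0, h1, -⟩ := hp
  rw [RN_two, ev_two hd h0 h1]
  have ha : |p.coeff 2| ≤ 1 / 2 := by
    rw [abs_mul] at h
    norm_num at h
    linarith
  have h2 := norm_sub_norm_le (pt t) (-((p.coeff 2 : ℂ) * pt t ^ 2))
  rw [sub_neg_eq_add, norm_neg, norm_mul, norm_pow, norm_pt, Complex.norm_real, norm_eq_abs] at h2
  linarith

/-- the real inequality for degree three -/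
theorem real3 {a b : ℝ} (hb : |b| ≤ 1 / 3)
    (hq : ∀ x ∈ Icc (-1 : ℝ) 1, 0 ≤ (1 - b) + 2 * a * x + 4 * b * x ^ 2) (ha : 0 ≤ a)
    {x : ℝ} (hx : x ∈ Icc (-1 : ℝ) 1) :
    ((3 - √5) / 2) ^ 2 ≤ (1 - b) ^ 2 + a ^ 2 + 2 * a * (1 + b) * x + 4 * b * x ^ 2 := by
  have h5 : √5 ^ 2 = 5 := sq_sqrt (by norm_num)
  have h50 : 2.236 ≤ √5 := by
    rw [show (2.236 : ℝ) = √(2.236 ^ 2) from (sqrt_sq (by norm_num)).symm]
    exact sqrt_le_sqrt (by norm_num)
  have h51 : √5 ≤ 2.2361 := by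
    rw [show (2.2361 : ℝ) = √(2.2361 ^ 2) from (sqrt_sq (by norm_num)).symm]
    exact sqrt_le_sqrt (by norm_num)
  have hR : ((3 - √5) / 2) ^ 2 ≤ 0.146 := by nlinarith
  obtain ⟨hb1, hb2⟩ := abs_le.1 hb
  obtain ⟨hx1, hx2⟩ := hx
  have q1 := hq (-1) ⟨le_rfl, by norm_num⟩
  -- the end point value
  have endp : (1 - a + b) ^ 2 ≤ (1 - b) ^ 2 + a ^ 2 + 2 * a * (1 + b) * x + 4 * b * x ^ 2 ∨
      (0 < b ∧ a * (1 + b) < 4 * b) := by
    by_cases hb0 : 0 < b
    · rcases lt_or_ge (a * (1 + b)) (4 * b) with h | h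
      · exact Or.inr ⟨hb0, h⟩
      · left
        have : 0 ≤ (x + 1) * (2 * (a * (1 + b) - 4 * b) + 4 * b * (1 + x)) := by
          refine mul_nonneg (by linarith) ?_
          have := mul_nonneg hb0.le (by linarith : (0 : ℝ) ≤ 1 + x)
          linarith
        nlinarith
    · left
      have hb0' : b ≤ 0 := not_lt.1 hb0
      have h1 : 0 ≤ (x + 1) * (2 * (a * (1 + b)) + 4 * (-b) * (1 - x)) := by
        refine mul_nonneg (by linarith) ?_
        have := mul_nonneg (by linarith : 0 ≤ -b) (by linarith : (0 : ℝ) ≤ 1 - x)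
        have := mul_nonneg ha (by linarith : 0 ≤ 1 + b)
        linarith
      nlinarith
  rcases endp with h | ⟨hb0, h⟩
  · refine le_trans ?_ h
    have key : (3 - √5) / 2 ≤ 1 - a + b := by
      by_cases hab : 0 < b ∧ a ≤ 4 * b
      · obtain ⟨hb0, hab⟩ := hab
        have q2 := hq (-a / (4 * b)) ⟨by rw [le_div_iff₀ (by positivity)]; linarith,
          by rw [div_le_iff₀ (by positivity)]; linarith⟩
        have h3 : a ^ 2 ≤ 4 * b * (1 - b) := by
          have e : (1 - b) + 2 * a * (-a / (4 * b)) + 4 * b * (-a / (4 * b)) ^ 2 =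
            ((4 * b * (1 - b)) - a ^ 2) / (4 * b) := by field_simp; ring
          rw [e] at q2
          have := (div_nonneg_iff.1 q2).resolve_right (by rintro ⟨-, h⟩; linarith)
          linarith [this.1]
        have h4 : a ^ 2 ≤ (b + (√5 - 1) / 2) ^ 2 := by
          nlinarith [sq_nonneg (10 * b - (5 - √5))]
        have h5' : a ≤ b + (√5 - 1) / 2 := abs_le_of_sq_le_sq' h4 (by linarith) |>.2
        linarith
      · rw [not_and_or, not_lt, not_le] at hab
        rcases hab with hb0 | hab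
        · nlinarith
        · rcases le_or_gt b 0 with hb0 | hb0
          · nlinarith
          · nlinarith
    exact pow_le_pow_left₀ (by linarith) key 2
  · refine hR.trans ?_
    -- interior vertex
    have hq2 := hq (-a / (4 * b)) ⟨by rw [le_div_iff₀ (by positivity)]; nlinarith,
          by rw [div_le_iff₀ (by positivity)]; nlinarith⟩
    have h3 : a ^ 2 ≤ 4 * b * (1 - b) := by
      have e : (1 - b) + 2 * a * (-a / (4 * b)) + 4 * b * (-a / (4 * b)) ^ 2 =
        ((4 * b * (1 - b)) - a ^ 2) / (4 * b) := by field_simp; ring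
      rw [e] at hq2
      have := (div_nonneg_iff.1 hq2).resolve_right (by rintro ⟨-, h⟩; linarith)
      linarith [this.1]
    have h4 : (1 - b) ^ 2 * (1 - a ^ 2 / (4 * b)) ≤
        (1 - b) ^ 2 + a ^ 2 + 2 * a * (1 + b) * x + 4 * b * x ^ 2 := by
      have e : (1 - b) ^ 2 + a ^ 2 + 2 * a * (1 + b) * x + 4 * b * x ^ 2 -
          (1 - b) ^ 2 * (1 - a ^ 2 / (4 * b)) = (4 * b * x + a * (1 + b)) ^ 2 / (4 * b) := by
        field_simp; ring
      have : 0 ≤ (4 * b * x + a * (1 + b)) ^ 2 / (4 * b) := by positivity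
      linarith
    refine le_trans ?_ h4
    rcases le_or_gt b 0.2956 with hbs | hbs
    · -- `a ≤ 4b/(1+b)`
      have h6 : a ^ 2 / (4 * b) ≤ 4 * b / (1 + b) ^ 2 := by
        rw [div_le_div_iff₀ (by positivity) (by positivity)]
        have : (a * (1 + b)) ^ 2 ≤ (4 * b) ^ 2 := pow_le_pow_left₀ (by positivity) h.le 2
        nlinarith
      have h7 : 1 - 4 * b / (1 + b) ^ 2 = (1 - b) ^ 2 / (1 + b) ^ 2 := by field_simp; ring
      have h8 : (1 - b) ^ 2 / (1 + b) ^ 2 ≤ 1 - a ^ 2 / (4 * b) := by linarith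
      calc (0.146 : ℝ) ≤ (1 - b) ^ 2 * ((1 - b) ^ 2 / (1 + b) ^ 2) := by
            rw [← mul_div_assoc, le_div_iff₀ (by positivity)]
            have k1 : (0.7044 : ℝ) ≤ 1 - b := by linarith
            have k2 : (1 + b) ^ 2 ≤ 1.2956 ^ 2 := pow_le_pow_left₀ (by linarith) (by linarith) 2
            have k3 : (0.7044 : ℝ) ^ 2 ≤ (1 - b) ^ 2 := pow_le_pow_left₀ (by norm_num) k1 2
            nlinarith
        _ ≤ _ := mul_le_mul_of_nonneg_left h8 (by positivity)
    · have h6 : a ^ 2 / (4 * b) ≤ 1 - b := by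
        rw [div_le_iff₀ (by positivity)]; linarith
      calc (0.146 : ℝ) ≤ (1 - b) ^ 2 * b := by nlinarith [mul_nonneg (sub_nonneg.2 hbs.le) (sub_nonneg.2 hb2)]
        _ ≤ _ := mul_le_mul_of_nonneg_left (by linarith) (by positivity)

theorem small3 (hT : TargetTR) (hL : TargetLast) : TargetSmall3 := by
  intro p hp t
  have hlast := hL 3 p (by norm_num) hp
  have hTR := hT 3 p hp
  obtain ⟨hd, h0, h1, -⟩ := hp
  rw [RN_three, ev_three hd h0 h1]
  set a := p.coeff 2 with ha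
  set b := p.coeff 3 with hb
  have hb3 : |b| ≤ 1 / 3 := by
    rw [abs_mul] at hlast
    norm_num at hlast
    linarith
  have hq0 : ∀ x ∈ Ioo (-1 : ℝ) 1, 0 ≤ (1 - b) + 2 * a * x + 4 * b * x ^ 2 := by
    intro x hx
    have harc : arccos x ∈ Ioo (0 : ℝ) π := ⟨arccos_pos.2 hx.2, arccos_lt_pi.2 hx.1⟩
    have h := hTR _ harc
    rw [ev_three hd h0 h1] at h
    have hs : 0 < sin (arccos x) := sin_pos_of_pos_of_lt_pi harc.1 harc.2
    have hcs : sin (arccos x) ^ 2 = 1 - x ^ 2 := by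
      rw [sin_sq, cos_arccos hx.1.le hx.2.le]
    have e : ((pt (arccos x)) + (a : ℂ) * (pt (arccos x)) ^ 2 + (b : ℂ) * (pt (arccos x)) ^ 3).im =
        sin (arccos x) * ((1 - b) + 2 * a * x + 4 * b * x ^ 2) := by
      have hre := pt_re (arccos x)
      have him := pt_im (arccos x)
      rw [cos_arccos hx.1.le hx.2.le] at hre
      simp only [Complex.add_im, Complex.mul_im, Complex.ofReal_re, Complex.ofReal_im, zero_mul,
        add_zero, pow_succ, pow_zero, one_mul, Complex.mul_re, hre, him]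
      linear_combination (-b * sin (arccos x)) * hcs
    rw [e] at h
    exact ((pos_iff_pos_of_mul_pos h).1 hs).le
  have hq : ∀ x ∈ Icc (-1 : ℝ) 1, 0 ≤ (1 - b) + 2 * a * x + 4 * b * x ^ 2 := by
    have hc : IsClosed {x : ℝ | 0 ≤ (1 - b) + 2 * a * x + 4 * b * x ^ 2} :=
      isClosed_le continuous_const (by fun_prop)
    have hsub := hc.closure_subset_iff.2 (show Ioo (-1 : ℝ) 1 ⊆ _ from hq0)
    rw [closure_Ioo (by norm_num)] at hsub
    exact hsub
  have hx : cos t ∈ Icc (-1 : ℝ) 1 := ⟨neg_one_le_cos t, cos_le_one t⟩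
  have hmain : ((3 - √5) / 2) ^ 2 ≤
      (1 - b) ^ 2 + a ^ 2 + 2 * a * (1 + b) * cos t + 4 * b * cos t ^ 2 := by
    rcases le_total 0 a with h | h
    · exact real3 hb3 hq h hx
    · have := real3 (a := -a) hb3 (fun y hy => by
        have := hq (-y) ⟨by linarith [hy.2], by linarith [hy.1]⟩
        linarith) (by linarith) (x := -cos t) ⟨by linarith [hx.2], by linarith [hx.1]⟩
      linarith
  have hn : ‖pt t + (a : ℂ) * pt t ^ 2 + (b : ℂ) * pt t ^ 3‖ ^ 2 =
      (1 - b) ^ 2 + a ^ 2 + 2 * a * (1 + b) * cos t + 4 * b * cos t ^ 2 := by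
    have e : pt t + (a : ℂ) * pt t ^ 2 + (b : ℂ) * pt t ^ 3 =
        pt t * (1 + (a : ℂ) * pt t + (b : ℂ) * pt t ^ 2) := by ring
    rw [e, norm_mul, norm_pt, one_mul, Complex.sq_norm, Complex.normSq_apply]
    simp only [Complex.add_im, Complex.mul_im, Complex.ofReal_re, Complex.ofReal_im, zero_mul,
        add_zero, pow_succ, pow_zero, one_mul, Complex.mul_re, pt_re, pt_im, Complex.add_re,
        Complex.one_re, Complex.one_im]
    have hcs := sin_sq t
    linear_combination (a ^ 2 + 2 * a * b * cos t + 2 * b ^ 2 * cos t ^ 2 - 2 * b +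
      b ^ 2 * (sin t ^ 2 + 1 - cos t ^ 2)) * hcs
  have hpos : 0 ≤ (3 - √5) / 2 := by
    have : √5 ≤ 3 := by
      rw [show (3 : ℝ) = √(3 ^ 2) from (sqrt_sq (by norm_num)).symm]
      exact sqrt_le_sqrt (by norm_num)
    linarith
  rw [← hn] at hmain
  exact (abs_le_of_sq_le_sq' hmain (norm_nonneg _)).2

end Pool.Agent.H97.KP
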